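import Mathlib
import Pool.Agent.CarpetM.Example

/-!
# Dimension orderings for mixed-type self-affine carpets

For each of the four configurations (a), (b), (c), (d) of the problem we decide whether a
mixed-type carpet can realise it: (c) occurs, and (a), (b), (d) never occur.
-/

open MeasureTheory Filter Topology Set
open scoped ENNReal NNReal BigOperators

namespace Pool.Agent.Results.MP_0a98f6_an.DimensionOrders

open CarpetM

/-- The Euclidean plane. -/
abbrev Plane : Type := EuclideanSpace ℝ (Fin 2)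

/-- A grid on the unit square with a choice of cells: `m ≥ 2` columns of widths `c 0, c 1, …`
(from left to right), `n ≥ 2` rows of heights `d 0, d 1, …` (from bottom to top), and a set `I`
of at least two cells, the cell `(a, b)` being the rectangle in column `a` and row `b`. -/
structure Grid where
  m : ℕ
  n : ℕ
  hm : 2 ≤ m
  hn : 2 ≤ n
  c : Fin m → ℝ
  d : Fin n → ℝ
  hc : ∀ a, 0 < c a
  hd : ∀ b, 0 < d b
  hc1 : ∑ a, c a = 1
  hd1 : ∑ b, d b = 1
  I : Finset (Fin m × Fin n)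
  hI : 2 ≤ I.card

/-- The affine map `(x, y) ↦ (c_a x + c_0 + ⋯ + c_{a-1}, d_b y + d_0 + ⋯ + d_{b-1})` taking the unit
square onto the cell `(a, b)`. -/
noncomputable def Grid.map (G : Grid) (i : Fin G.m × Fin G.n) (p : Plane) : Plane :=
  !₂[G.c i.1 * p 0 + ∑ a ∈ Finset.Iio i.1, G.c a, G.d i.2 * p 1 + ∑ b ∈ Finset.Iio i.2, G.d b]

/-- `F` is the attractor of the carpet: a nonempty compact subset of the unit square with
`F = ⋃ i ∈ I, S_i(F)`. -/
def Grid.IsAttractor (G : Grid) (F : Set Plane) : Prop :=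
  F.Nonempty ∧ IsCompact F ∧ (∀ p ∈ F, ∀ k, 0 ≤ p k ∧ p k ≤ 1) ∧ F = ⋃ i ∈ G.I, G.map i '' F

/-- The carpet is of mixed type: some chosen cell is wider than high, and some chosen cell is
higher than wide. -/
def Grid.Mixed (G : Grid) : Prop :=
  (∃ i ∈ G.I, G.d i.2 < G.c i.1) ∧ (∃ j ∈ G.I, G.c j.1 < G.d j.2)

section aux

theorem lt_one_of_sum {m : ℕ} (hm : 2 ≤ m) {c : Fin m → ℝ} (hc : ∀ a, 0 < c a)
    (h : ∑ a, c a = 1) (a : Fin m) : c a < 1 := by
  have : Nontrivial (Fin m) := Fin.nontrivial_iff_two_le.2 hm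
  obtain ⟨a', ha'⟩ := exists_ne a
  have h1 : c a + c a' ≤ ∑ a, c a := by
    rw [← Finset.sum_pair ha'.symm]
    exact Finset.sum_le_sum_of_subset_of_nonneg (Finset.subset_univ _) fun i _ _ => (hc i).le
  have h2 := hc a'
  linarith

theorem off_add {m : ℕ} {c : Fin m → ℝ} (a : Fin m) :
    ∑ a' ∈ Finset.Iio a, c a' + c a = ∑ a' ∈ Finset.Iic a, c a' := by
  rw [← Finset.Iio_insert, Finset.sum_insert (by simp)]
  ring

theorem off_le {m : ℕ} {c : Fin m → ℝ} (hc : ∀ a, 0 < c a) (h : ∑ a, c a = 1) (a : Fin m) :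
    ∑ a' ∈ Finset.Iio a, c a' + c a ≤ 1 := by
  rw [off_add, ← h]
  exact Finset.sum_le_sum_of_subset_of_nonneg (Finset.subset_univ _) fun i _ _ => (hc i).le

theorem off_sep {m : ℕ} {c : Fin m → ℝ} (hc : ∀ a, 0 < c a) {a a' : Fin m} (hne : a ≠ a') :
    ∑ i ∈ Finset.Iio a, c i + c a ≤ ∑ i ∈ Finset.Iio a', c i ∨
      ∑ i ∈ Finset.Iio a', c i + c a' ≤ ∑ i ∈ Finset.Iio a, c i := by
  rcases lt_or_gt_of_ne hne with h | h
  · left
    rw [off_add]
    refine Finset.sum_le_sum_of_subset_of_nonneg ?_ fun i _ _ => (hc i).le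
    intro i hi
    rw [Finset.mem_Iic] at hi
    exact Finset.mem_Iio.2 (hi.trans_lt h)
  · right
    rw [off_add]
    refine Finset.sum_le_sum_of_subset_of_nonneg ?_ fun i _ _ => (hc i).le
    intro i hi
    rw [Finset.mem_Iic] at hi
    exact Finset.mem_Iio.2 (hi.trans_lt h)

/-- The associated system. -/
noncomputable def Grid.toSys (G : Grid) : Sys (Fin G.m) (Fin G.n) where
  c := G.c
  u a := ∑ a' ∈ Finset.Iio a, G.c a'
  d := G.d
  v b := ∑ b' ∈ Finset.Iio b, G.d b'
  I := G.I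
  hc0 := G.hc
  hc1 := lt_one_of_sum G.hm G.hc G.hc1
  hu0 a := Finset.sum_nonneg fun i _ => (G.hc i).le
  hu1 := off_le G.hc G.hc1
  hu a a' hne := off_sep G.hc hne
  hd0 := G.hd
  hd1 := lt_one_of_sum G.hn G.hd G.hd1
  hv0 b := Finset.sum_nonneg fun i _ => (G.hd i).le
  hv1 := off_le G.hd G.hd1
  hv b b' hne := off_sep G.hd hne
  hI := Finset.card_pos.1 (by have := G.hI; omega)

/-- The coordinate map. -/
noncomputable def coord (p : Plane) : ℝ × ℝ := (p 0, p 1)

theorem chart_coord : Chart coord where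
  le p q := by
    rw [Prod.dist_eq, EuclideanSpace.dist_eq, Fin.sum_univ_two]
    simp only [coord]
    apply max_le
    · apply Real.le_sqrt_of_sq_le
      nlinarith [sq_nonneg (dist (p 1) (q 1))]
    · apply Real.le_sqrt_of_sq_le
      nlinarith [sq_nonneg (dist (p 0) (q 0))]
  ge p q := by
    rw [Prod.dist_eq, EuclideanSpace.dist_eq, Fin.sum_univ_two]
    simp only [coord]
    set A := dist (p 0) (q 0)
    set B := dist (p 1) (q 1)
    have hA : 0 ≤ A := dist_nonneg
    have hB : 0 ≤ B := dist_nonneg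
    rw [Real.sqrt_le_left (by positivity)]
    have h1 : A ≤ max A B := le_max_left _ _
    have h2 : B ≤ max A B := le_max_right _ _
    nlinarith
  surj := by
    rintro ⟨x, y⟩
    exact ⟨!₂[x, y], by simp [coord]⟩

theorem coord_map (G : Grid) (i : Fin G.m × Fin G.n) (p : Plane) :
    coord (G.map i p) = G.toSys.map i (coord p) := by
  simp [coord, Grid.map, Sys.map, Grid.toSys]

theorem isAttr_of_isAttractor {G : Grid} {F : Set Plane} (hF : G.IsAttractor F) :
    G.toSys.IsAttr (coord '' F) := by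
  obtain ⟨h1, h2, h3, h4⟩ := hF
  refine ⟨?_, h1.image _, ?_, ?_, ?_⟩
  · have : LipschitzWith 1 coord := LipschitzWith.mk_one chart_coord.le
    exact h2.image this.continuous
  · rintro _ ⟨p, hp, rfl⟩
    exact ⟨h3 p hp 0, h3 p hp 1⟩
  · rintro i hi _ ⟨p, hp, rfl⟩
    refine ⟨G.map i p, ?_, coord_map G i p⟩
    rw [h4]
    simp only [mem_iUnion]
    exact ⟨i, hi, p, hp, rfl⟩
  · rintro _ ⟨p, hp, rfl⟩
    rw [h4] at hp
    simp only [mem_iUnion] at hp
    obtain ⟨i, hi, q, hq, rfl⟩ := hp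
    exact ⟨i, hi, coord q, ⟨q, hq, rfl⟩, (coord_map G i q).symm⟩

theorem exists_isAttractor (G : Grid) : ∃ F, G.IsAttractor F := by
  obtain ⟨K, hK⟩ := G.toSys.exists_attr
  have himg : coord '' (coord ⁻¹' K) = K := image_preimage_eq K chart_coord.surj
  have hcont : Continuous fun p : ℝ × ℝ => (!₂[p.1, p.2] : Plane) := by fun_prop
  have hpre : coord ⁻¹' K = (fun p : ℝ × ℝ => (!₂[p.1, p.2] : Plane)) '' K := by
    ext p
    constructor
    · intro hp
      exact ⟨coord p, hp, by apply chart_coord.inj; simp [coord]⟩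
    · rintro ⟨q, hq, rfl⟩
      simpa [coord] using hq
  refine ⟨coord ⁻¹' K, ?_, ?_, ?_, ?_⟩
  · rw [hpre]; exact hK.nonempty.image _
  · rw [hpre]; exact hK.compact.image hcont
  · intro p hp k
    have := hK.mem01 _ hp
    fin_cases k
    · exact this.1
    · exact this.2
  · ext p
    simp only [mem_iUnion, mem_image, mem_preimage, exists_prop]
    constructor
    · intro hp
      obtain ⟨i, hi, q, hq, h⟩ := hK.dec _ hp
      obtain ⟨q', rfl⟩ := chart_coord.surj q
      refine ⟨i, hi, q', hq, ?_⟩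
      apply chart_coord.inj
      rw [coord_map]
      exact h
    · rintro ⟨i, hi, q, hq, rfl⟩
      rw [coord_map]
      exact hK.inv i hi _ hq

theorem nontrivial_of_isAttr {α β : Type*} {S : Sys α β} {F : Set (ℝ × ℝ)} (hF : S.IsAttr F)
    {i j : α × β} (hi : i ∈ S.I) (hj : j ∈ S.I) (hij : i ≠ j) : F.Nontrivial := by
  by_contra hcon
  rw [Set.not_nontrivial_iff] at hcon
  obtain ⟨p, hp⟩ := hF.nonempty
  have h1 : S.map i p = p := hcon (hF.inv i hi p hp) hp
  have h2 : S.map j p = p := hcon (hF.inv j hj p hp) hp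
  have h3 : S.c i.1 * p.1 + S.u i.1 = p.1 := congrArg Prod.fst h1
  have h4 : S.d i.2 * p.2 + S.v i.2 = p.2 := congrArg Prod.snd h1
  have h5 : S.c j.1 * p.1 + S.u j.1 = p.1 := congrArg Prod.fst h2
  have h6 : S.d j.2 * p.2 + S.v j.2 = p.2 := congrArg Prod.snd h2
  obtain ⟨⟨p1, p2⟩, ⟨p3, p4⟩⟩ := hF.mem01 p hp
  have key : ∀ {c c' u u' x : ℝ}, 0 < c → 0 < c' → 0 ≤ x → x ≤ 1 → c * x + u = x →
      c' * x + u' = x → u + c ≤ u' → False := by
    intro c c' u u' x hc hc' hx0 hx1 e1 e2 hle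
    have h7 : c * x + c' * x + u' ≤ c * x + x := by linarith
    have h8 : c * (1 - x) + c' * x ≤ 0 := by nlinarith
    have h9 : 0 ≤ c * (1 - x) := mul_nonneg hc.le (by linarith)
    have h10 : 0 ≤ c' * x := mul_nonneg hc'.le hx0
    have h11 : c' * x = 0 := by linarith
    have h12 : c * (1 - x) = 0 := by linarith
    rcases mul_eq_zero.1 h11 with h | h
    · linarith
    · rw [h] at h12; linarith
  by_cases h : i.1 = j.1
  · have h' : i.2 ≠ j.2 := fun h' => hij (Prod.ext h h')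
    rcases S.hv _ _ h' with h7 | h7
    · exact key (S.hd0 _) (S.hd0 _) p3 p4 h4 h6 h7
    · exact key (S.hd0 _) (S.hd0 _) p3 p4 h6 h4 h7
  · rcases S.hu _ _ h with h7 | h7
    · exact key (S.hc0 _) (S.hc0 _) p1 p2 h3 h5 h7
    · exact key (S.hc0 _) (S.hc0 _) p1 p2 h5 h3 h7

theorem diam_pos {G : Grid} {F : Set Plane} (hF : G.IsAttractor F) : 0 < Metric.diam F := by
  obtain ⟨i, hi, j, hj, hij⟩ := Finset.one_lt_card.1 (lt_of_lt_of_le one_lt_two G.hI)
  have h1 := nontrivial_of_isAttr (isAttr_of_isAttractor hF) hi hj hij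
  have h2 : F.Nontrivial := by
    obtain ⟨_, ⟨p, hp, rfl⟩, _, ⟨q, hq, rfl⟩, hne⟩ := h1
    exact ⟨p, hp, q, hq, fun h => hne (by rw [h])⟩
  exact Metric.diam_pos h2 hF.2.1.isBounded

/-- The grid of the example: columns of widths `3/10, 4/10, 3/10`, rows of heights
`1/100, 81/100, 18/100`, chosen cells `(0,0)`, `(2,0)`, `(1,1)`. -/
noncomputable def exGrid : Grid where
  m := 3
  n := 3
  hm := by norm_num
  hn := by norm_num
  c := ![3 / 10, 4 / 10, 3 / 10]
  d := ![1 / 100, 81 / 100, 18 / 100]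
  hc a := by fin_cases a <;> norm_num
  hd b := by fin_cases b <;> norm_num
  hc1 := by simp [Fin.sum_univ_three]; norm_num
  hd1 := by simp [Fin.sum_univ_three]; norm_num
  I := {(0, 0), (2, 0), (1, 1)}
  hI := by decide

/-- The system of the example. -/
noncomputable def exSys : Sys (Fin 3) (Fin 3) := exGrid.toSys

theorem ex_I : exSys.I = ({(0, 0), (2, 0), (1, 1)} : Finset (Fin 3 × Fin 3)) := rfl

theorem ex_I' : exSys.swap.I = ({(0, 0), (0, 2), (1, 1)} : Finset (Fin 3 × Fin 3)) := by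
  simp only [Sys.swap, ex_I]
  decide

theorem ex_cols : exSys.cols = (Finset.univ : Finset (Fin 3)) := by
  rw [Sys.cols, ex_I]
  decide

theorem ex_rows : exSys.swap.cols = ({0, 1} : Finset (Fin 3)) := by
  rw [Sys.cols, ex_I']
  decide

theorem ex_row0 : exSys.swap.colIdx 0 = ({(0, 0), (0, 2)} : Finset (Fin 3 × Fin 3)) := by
  rw [Sys.colIdx, ex_I']
  decide

theorem ex_row1 : exSys.swap.colIdx 1 = ({(1, 1)} : Finset (Fin 3 × Fin 3)) := by
  rw [Sys.colIdx, ex_I']
  decide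

theorem ex_c : exSys.c = ![3 / 10, 4 / 10, 3 / 10] := rfl

theorem ex_d : exSys.d = ![1 / 100, 81 / 100, 18 / 100] := rfl

theorem ex_u : exSys.u = ![0, 3 / 10, 7 / 10] := by
  have h : exSys.u = fun a => ∑ a' ∈ Finset.Iio a, (![3 / 10, 4 / 10, 3 / 10] : Fin 3 → ℝ) a' := rfl
  rw [h]
  funext a
  fin_cases a
  · have : (Finset.Iio (0 : Fin 3)) = ∅ := by decide
    simp [this]
  · have : (Finset.Iio (1 : Fin 3)) = {0} := by decide
    simp [this]
  · have : (Finset.Iio (2 : Fin 3)) = {0, 1} := by decide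
    simp [this]
    norm_num

theorem sqrt_1 : ((1 : ℝ) / 100) ^ (1 / 2 : ℝ) = 1 / 10 := by
  rw [← Real.sqrt_eq_rpow, show (1 : ℝ) / 100 = (1 / 10) ^ 2 by norm_num, Real.sqrt_sq (by norm_num)]

theorem sqrt_81 : ((81 : ℝ) / 100) ^ (1 / 2 : ℝ) = 9 / 10 := by
  rw [← Real.sqrt_eq_rpow, show (81 : ℝ) / 100 = (9 / 10) ^ 2 by norm_num,
    Real.sqrt_sq (by norm_num)]

theorem sqrt_3_le : ((3 : ℝ) / 10) ^ (1 / 2 : ℝ) ≤ 6 / 10 := by
  rw [← Real.sqrt_eq_rpow, Real.sqrt_le_left (by norm_num)]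
  norm_num

theorem le_sqrt_3 : 6 / 10 - 1 / 20 - 1 / 40 ≤ ((3 : ℝ) / 10) ^ (1 / 2 : ℝ) := by
  rw [← Real.sqrt_eq_rpow]
  apply Real.le_sqrt_of_sq_le
  norm_num

theorem sqrt_4_le : ((4 : ℝ) / 10) ^ (1 / 2 : ℝ) ≤ 7 / 10 := by
  rw [← Real.sqrt_eq_rpow, Real.sqrt_le_left (by norm_num)]
  norm_num

theorem ex_positive {F : Set Plane} (hF : exGrid.IsAttractor F) :
    IsBoxDim F 1 ∧ lowerDim F < dimH F ∧ dimH F = ((1 : ℝ≥0) : ℝ≥0∞) ∧
      ((1 : ℝ≥0) : ℝ≥0∞) < assouadDim F := by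
  have hF' : exSys.IsAttr (coord '' F) := isAttr_of_isAttractor hF
  apply positive chart_coord exSys hF.2.1 hF' (diam_pos hF) (b0 := 1) (b1 := 0)
  · intro x hx0 hx1
    rw [ex_I, ex_c, ex_u]
    rcases le_total x (3 / 10) with h | h
    · exact ⟨(0, 0), by simp, x / (3 / 10), by positivity, by linarith, by
        simp; ring⟩
    · rcases le_total x (7 / 10) with h' | h'
      · exact ⟨(1, 1), by simp, (x - 3 / 10) / (4 / 10), by
          apply div_nonneg <;> linarith, by linarith, by simp; ring⟩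
      · exact ⟨(2, 0), by simp, (x - 7 / 10) / (3 / 10), by
          apply div_nonneg <;> linarith, by linarith, by simp; ring⟩
  · rw [ex_cols, ex_c]
    simp [Fin.sum_univ_three]; norm_num
  · rw [ex_I, ex_c]
    simp; norm_num
  · rw [ex_rows, ex_d]
    simp only [Finset.sum_insert (show (0 : Fin 3) ∉ ({1} : Finset (Fin 3)) by decide),
      Finset.sum_singleton]
    simp only [Matrix.cons_val_zero, Matrix.cons_val_one]
    rw [sqrt_1, sqrt_81]; norm_num
  · rw [ex_I, ex_c, ex_d]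
    rw [Finset.sum_insert (by decide), Finset.sum_insert (by decide), Finset.sum_singleton]
    have h1 := sqrt_3_le
    have h2 := sqrt_4_le
    simp only [Matrix.cons_val_zero, Matrix.cons_val_one, Matrix.cons_val]
    rw [sqrt_1, sqrt_81]
    linarith
  · rw [ex_I]; exact ⟨(0, 0), by simp, (1, 1), by simp, by simp⟩
  · rw [ex_I]; exact ⟨(0, 0), by simp, (1, 1), by simp, by simp⟩
  · rw [ex_I, ex_c, ex_d]; exact ⟨(1, 1), by simp, by simp; norm_num⟩
  · rw [ex_rows]; decide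
  · rw [ex_rows]; decide
  · rw [ex_row1]; simp
  · rw [ex_row0, Finset.sum_insert (by decide), Finset.sum_singleton]
    have h1 := le_sqrt_3
    have h2 : exSys.swap.d = ![3 / 10, 4 / 10, 3 / 10] := rfl
    rw [h2]
    simp only [Matrix.cons_val_zero, Matrix.cons_val]
    linarith

end aux

/-- Configuration (c) occurs; configurations (a), (b), (d) never occur for mixed-type carpets
(also not with the upper box dimension in place of the box dimension). -/
theorem result :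
    -- (c) occurs
    (∃ (G : Grid) (F : Set Plane) (b : ℝ≥0), G.Mixed ∧ G.IsAttractor F ∧ IsBoxDim F b ∧
      lowerDim F < dimH F ∧ dimH F = b ∧ b < assouadDim F) ∧
    -- (a), (b), (d) do not occur
    (∀ (G : Grid) (F : Set Plane), G.Mixed → G.IsAttractor F →
      ∀ b : ℝ≥0∞, ((∃ b' : ℝ≥0, b = b' ∧ IsBoxDim F b') ∨ b = upperBoxDim F) →
        ¬ (lowerDim F = dimH F ∧ dimH F < b ∧ b = assouadDim F) ∧
        ¬ (lowerDim F = dimH F ∧ dimH F < b ∧ b < assouadDim F) ∧
        ¬ (lowerDim F < dimH F ∧ dimH F < b ∧ b = assouadDim F)) := by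
  constructor
  · obtain ⟨F, hF⟩ := exists_isAttractor exGrid
    obtain ⟨h1, h2, h3, h4⟩ := ex_positive hF
    refine ⟨exGrid, F, 1, ?_, hF, h1, h2, h3, h4⟩
    have m1 : ((0 : Fin 3), (0 : Fin 3)) ∈ exSys.I := by rw [ex_I]; decide
    have m2 : ((1 : Fin 3), (1 : Fin 3)) ∈ exSys.I := by rw [ex_I]; decide
    constructor
    · refine ⟨((0 : Fin 3), (0 : Fin 3)), ?_, ?_⟩
      · exact m1
      · change (![1 / 100, 81 / 100, 18 / 100] : Fin 3 → ℝ) 0 <
          (![3 / 10, 4 / 10, 3 / 10] : Fin 3 → ℝ) 0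
        simp; norm_num
    · refine ⟨((1 : Fin 3), (1 : Fin 3)), ?_, ?_⟩
      · exact m2
      · change (![3 / 10, 4 / 10, 3 / 10] : Fin 3 → ℝ) 1 <
          (![1 / 100, 81 / 100, 18 / 100] : Fin 3 → ℝ) 1
        simp; norm_num
  · intro G F hmix hF b hb
    have hb' : b = upperBoxDim F := by
      rcases hb with ⟨b', rfl, hb'⟩ | hb
      · exact (upperBoxDim_eq hb').symm
      · exact hb
    have key := negative chart_coord G.toSys hF.2.1 (isAttr_of_isAttractor hF) (diam_pos hF)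
      hmix.1 hmix.2
    rw [← hb'] at key
    refine ⟨?_, ?_, ?_⟩
    · rintro ⟨h1, h2, h3⟩
      exact absurd (key.1 h3) (not_le.2 h2)
    · rintro ⟨h1, h2, h3⟩
      exact absurd (key.2 h1) (not_le.2 h2)
    · rintro ⟨h1, h2, h3⟩
      exact absurd (key.1 h3) (not_le.2 h2)

end Pool.Agent.Results.MP_0a98f6_an.DimensionOrders
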